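import Mathlib.SetTheory.Cardinal.Continuum
import Mathlib.SetTheory.Cardinal.Cofinality.Basic
import Mathlib.SetTheory.Cardinal.Regular
import Mathlib.Order.Filter.Ultrafilter.Basic
import Mathlib.Order.Filter.AtTopBot.Basic
import Mathlib.Order.Zorn
import Mathlib.Logic.Encodable.Pi
import Mathlib.Logic.Equiv.List

/-!
A maximal ideal on `ω` of cofinality `𝔠` with relative cofinality `ω₁` over a smaller ideal.
-/

namespace Pool.Agent.Results.MP_f21612_lc.MaximalIdeal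

open Cardinal Set Filter

/-- `I` is an ideal on `ω`: closed under subsets and finite unions, `ω ∉ I`, and every finite set
is in `I`. -/
structure IsIdeal (I : Set (Set ℕ)) : Prop where
  subset : ∀ A ∈ I, ∀ B ⊆ A, B ∈ I
  union : ∀ A ∈ I, ∀ B ∈ I, A ∪ B ∈ I
  univ_notMem : Set.univ ∉ I
  finite : ∀ A : Set ℕ, A.Finite → A ∈ I

/-- `I` is a maximal ideal: an ideal that is maximal under inclusion among ideals on `ω`. -/
def IsMaximalIdeal (I : Set (Set ℕ)) : Prop :=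
  IsIdeal I ∧ ∀ K : Set (Set ℕ), IsIdeal K → I ⊆ K → K = I

/-- `cof(I)`: the least size of a family `B ⊆ I` such that every member of `I` is contained in a
member of `B`. -/
noncomputable def cof (I : Set (Set ℕ)) : Cardinal.{0} :=
  sInf {κ | ∃ B ⊆ I, (∀ A ∈ I, ∃ b ∈ B, A ⊆ b) ∧ #B = κ}

/-- `cof_J(I)`: the least size of a family `𝒜 ⊆ I` such that for every `S ∈ I` there is `A ∈ 𝒜`
with `S \ A ∈ J`. -/
noncomputable def cofRel (J I : Set (Set ℕ)) : Cardinal.{0} :=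
  sInf {κ | ∃ 𝒜 ⊆ I, (∀ S ∈ I, ∃ A ∈ 𝒜, S \ A ∈ J) ∧ #𝒜 = κ}

theorem cof_le {I B : Set (Set ℕ)} (hB : B ⊆ I) (h : ∀ A ∈ I, ∃ b ∈ B, A ⊆ b) : cof I ≤ #B :=
  csInf_le' (s := {κ | ∃ B ⊆ I, (∀ A ∈ I, ∃ b ∈ B, A ⊆ b) ∧ #B = κ}) ⟨B, hB, h, rfl⟩

theorem cofRel_le {J I 𝒜 : Set (Set ℕ)} (h𝒜 : 𝒜 ⊆ I) (h : ∀ S ∈ I, ∃ A ∈ 𝒜, S \ A ∈ J) :
    cofRel J I ≤ #𝒜 :=
  csInf_le' (s := {κ | ∃ 𝒜 ⊆ I, (∀ S ∈ I, ∃ A ∈ 𝒜, S \ A ∈ J) ∧ #𝒜 = κ}) ⟨𝒜, h𝒜, h, rfl⟩

/-! ### An independent family -/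

/-- The cell of a pair of finite sets of indices. -/
def cell {T : Type} (A : T → Set ℕ) (P N : Finset T) : Set ℕ :=
  {k | (∀ t ∈ P, k ∈ A t) ∧ ∀ t ∈ N, k ∉ A t}

theorem cell_anti {T : Type} (A : T → Set ℕ) {P N P' N' : Finset T} (hP : P ⊆ P') (hN : N ⊆ N') :
    cell A P' N' ⊆ cell A P N := fun _ hk => ⟨fun t ht => hk.1 t (hP ht), fun t ht => hk.2 t (hN ht)⟩

open Classical in
/-- trace of a set on `{0, …, n-1}` -/
noncomputable def tr (n : ℕ) (s : Set ℕ) : Finset ℕ := (Finset.range n).filter (· ∈ s)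

theorem tr_ne {s t : Set ℕ} (h : s ≠ t) : ∀ᶠ n in atTop, tr n s ≠ tr n t := by
  obtain ⟨k, hk⟩ : ∃ k, ¬ (k ∈ s ↔ k ∈ t) := by
    by_contra hc
    push Not at hc
    exact h (Set.ext hc)
  filter_upwards [eventually_gt_atTop k] with n hn heq
  have h1 : k ∈ tr n s ↔ k ∈ tr n t := by rw [heq]
  simp only [tr, Finset.mem_filter, Finset.mem_range, hn, true_and] at h1
  exact hk h1

/-- the independent family -/
def ind (s : Set ℕ) : Set ℕ := {k | ∃ p : ℕ × Finset (Finset ℕ), tr p.1 s ∈ p.2 ∧ Encodable.encode p = k}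

theorem mem_ind (s : Set ℕ) (p : ℕ × Finset (Finset ℕ)) : Encodable.encode p ∈ ind s ↔ tr p.1 s ∈ p.2 := by
  constructor
  · rintro ⟨q, h, hq⟩
    rwa [Encodable.encode_injective hq] at h
  · intro h
    exact ⟨p, h, rfl⟩

theorem ind_infinite (P N : Finset (Set ℕ)) (h : Disjoint P N) : (cell ind P N).Infinite := by
  classical
  have h1 : ∀ᶠ n in atTop, ∀ s ∈ P, ∀ t ∈ N, tr n s ≠ tr n t := by
    rw [eventually_all_finset]
    intro s hs
    rw [eventually_all_finset]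
    intro t ht
    exact tr_ne fun hst => Finset.disjoint_left.1 h hs (hst ▸ ht)
  obtain ⟨n0, hn0⟩ := eventually_atTop.1 h1
  refine Set.infinite_of_injective_forall_mem
    (f := fun m : ℕ => Encodable.encode ((m + n0, P.image (tr (m + n0))) : ℕ × Finset (Finset ℕ))) ?_ ?_
  · intro a b hab
    have := congrArg Prod.fst (Encodable.encode_injective hab)
    simpa using this
  · intro m
    refine ⟨fun s hs => ?_, fun t ht => ?_⟩
    · rw [mem_ind]
      exact Finset.mem_image_of_mem _ hs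
    · rw [mem_ind]
      intro hc
      obtain ⟨s, hs, hst⟩ := Finset.mem_image.1 hc
      exact hn0 (m + n0) (by omega) s hs t ht hst

/-! ### The first filter -/

section

variable {Ω : Type} (A : Ω → Set ℕ) (C : Set ℕ → Set ℕ)

/-- independence of the family `A` modulo a filter -/
def Ind (f : Filter ℕ) : Prop := ∀ P N : Finset Ω, Disjoint P N → ∀ F ∈ f, (F ∩ cell A P N).Nonempty

/-- The starting filter. -/
def base : Filter ℕ where
  sets := {F | ∃ P₀ : Finset (Set ℕ), ∀ P, P₀ ⊆ P → ∃ N, Disjoint P N ∧ (cell C P N \ F).Finite}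
  univ_sets := ⟨∅, fun P _ => ⟨∅, Finset.disjoint_empty_right _, by simp⟩⟩
  sets_of_superset := by
    rintro F G ⟨P₀, h⟩ hFG
    refine ⟨P₀, fun P hP => ?_⟩
    obtain ⟨N, h1, h2⟩ := h P hP
    exact ⟨N, h1, h2.subset (Set.sdiff_subset_sdiff_right hFG)⟩
  inter_sets := by
    classical
    rintro F G ⟨P₀, h⟩ ⟨P₁, h'⟩
    refine ⟨P₀ ∪ P₁, fun P hP => ?_⟩
    obtain ⟨N, h1, h2⟩ := h P (Finset.union_subset_left hP)
    obtain ⟨N', h1', h2'⟩ := h' P (Finset.union_subset_right hP)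
    refine ⟨N ∪ N', Finset.disjoint_union_right.2 ⟨h1, h1'⟩, (h2.union h2').subset ?_⟩
    rintro k ⟨hk, hk2⟩
    by_cases hF : k ∈ F
    · right
      exact ⟨cell_anti C subset_rfl Finset.subset_union_right hk, fun hG => hk2 ⟨hF, hG⟩⟩
    · left
      exact ⟨cell_anti C subset_rfl Finset.subset_union_left hk, hF⟩

theorem base_C (η : Set ℕ) : C η ∈ base C := by
  refine ⟨{η}, fun P hP => ⟨∅, Finset.disjoint_empty_right _, ?_⟩⟩
  have : cell C P ∅ \ C η = ∅ := by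
    ext k
    simp only [Set.mem_sdiff, Set.mem_empty_iff_false, iff_false, not_and, not_not]
    exact fun hk => hk.1 η (hP (Finset.mem_singleton_self η))
  rw [this]
  exact Set.finite_empty

theorem base_D (D : Set ℕ) (hD : {η | D ⊆ C η}.Infinite) : Dᶜ ∈ base C := by
  refine ⟨∅, fun P _ => ?_⟩
  obtain ⟨η, hη, hηP⟩ := hD.exists_notMem_finset P
  refine ⟨{η}, Finset.disjoint_singleton_right.2 hηP, ?_⟩
  have : cell C P {η} \ Dᶜ = ∅ := by
    ext k
    simp only [Set.mem_sdiff, Set.mem_compl_iff, not_not, Set.mem_empty_iff_false, iff_false, not_and]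
    exact fun hk hkD => hk.2 η (Finset.mem_singleton_self η) (hη hkD)
  rw [this]
  exact Set.finite_empty

theorem base_cofinite (E : Set ℕ) (hE : E.Finite) : Eᶜ ∈ base C :=
  ⟨∅, fun P _ => ⟨∅, Finset.disjoint_empty_right _, hE.subset fun k hk => by
    simpa using hk.2⟩⟩

theorem base_ind (h : ∀ (P N : Finset Ω) (Q R : Finset (Set ℕ)), Disjoint P N → Disjoint Q R →
    (cell A P N ∩ cell C Q R).Infinite) : Ind A (base C) := by
  rintro P N hPN F ⟨P₀, hF⟩
  obtain ⟨R, hR, hfin⟩ := hF P₀ subset_rfl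
  obtain ⟨k, hk, hk2⟩ := ((h P N P₀ R hPN hR).sdiff hfin).nonempty
  refine ⟨k, ?_, hk.1⟩
  by_contra hkF
  exact hk2 ⟨hk.2, hkF⟩

/-! ### The maximal filter -/

theorem exists_max (f : Filter ℕ) (hf : Ind A f) :
    ∃ g ≤ f, Ind A g ∧ ∀ g' ≤ g, Ind A g' → g' = g := by
  have key : ∀ c ⊆ {g : (Filter ℕ)ᵒᵈ | Ind A (OrderDual.ofDual g)}, IsChain (· ≤ ·) c → ∀ y ∈ c,
      ∃ ub ∈ {g : (Filter ℕ)ᵒᵈ | Ind A (OrderDual.ofDual g)}, ∀ z ∈ c, z ≤ ub := by
    intro c hc hchain y hy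
    let F : c → Filter ℕ := fun z => OrderDual.ofDual z.1
    have hne : Nonempty c := ⟨⟨y, hy⟩⟩
    have hdir : Directed (· ≥ ·) F := by
      intro a b
      rcases hchain.total a.2 b.2 with h | h
      · exact ⟨b, h, le_rfl⟩
      · exact ⟨a, le_rfl, h⟩
    refine ⟨OrderDual.toDual (⨅ z : c, F z), ?_, fun z hz => ?_⟩
    · intro P N hPN S hS
      obtain ⟨z, hz⟩ := (mem_iInf_of_directed hdir S).1 hS
      exact hc z.2 P N hPN S hz
    · exact iInf_le F ⟨z, hz⟩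
  obtain ⟨m, hm, hmax⟩ := zorn_le_nonempty₀ (α := (Filter ℕ)ᵒᵈ) _ key (OrderDual.toDual f) hf
  exact ⟨OrderDual.ofDual m, hm, hmax.prop, fun g' hg' hI =>
    le_antisymm hg' (hmax.le_of_ge (y := OrderDual.toDual g') hI hg')⟩

/-! ### Deciding sets -/

/-- `(P, N)` decides `B` modulo `g`. -/
def Dec (g : Filter ℕ) (B : Set ℕ) (P N : Finset Ω) : Prop :=
  (cell A P N ∩ B)ᶜ ∈ g ∨ (cell A P N \ B)ᶜ ∈ g

variable {A}

theorem Dec.mono {g : Filter ℕ} {B : Set ℕ} {P N P' N' : Finset Ω} (h : Dec A g B P N)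
    (hP : P ⊆ P') (hN : N ⊆ N') : Dec A g B P' N' := by
  rcases h with h | h
  · exact Or.inl (mem_of_superset h (Set.compl_subset_compl.2
      (Set.inter_subset_inter_left _ (cell_anti A hP hN))))
  · exact Or.inr (mem_of_superset h (Set.compl_subset_compl.2
      (Set.sdiff_subset_sdiff_left (cell_anti A hP hN))))

theorem exists_dec {g : Filter ℕ} (hg : Ind A g) (hmax : ∀ g' ≤ g, Ind A g' → g' = g) (B : Set ℕ)
    (P N : Finset Ω) (hPN : Disjoint P N) :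
    ∃ P' N', P ⊆ P' ∧ N ⊆ N' ∧ Disjoint P' N' ∧ Dec A g B P' N' := by
  classical
  by_contra hcon
  push Not at hcon
  have hI : Ind A (g ⊓ 𝓟 (B ∪ (cell A P N)ᶜ)) := by
    intro Q R hQR F hF
    rw [mem_inf_principal] at hF
    by_cases hd : Disjoint (P ∪ Q) (N ∪ R)
    · have h1 := hcon (P ∪ Q) (N ∪ R) Finset.subset_union_left Finset.subset_union_left hd
      simp only [Dec, not_or] at h1
      by_contra hne
      refine h1.1 (mem_of_superset hF fun k hk hk2 => ?_)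
      refine hne ⟨k, hk (Or.inl hk2.2), ?_⟩
      exact cell_anti A Finset.subset_union_right Finset.subset_union_right hk2.1
    · obtain ⟨k, hk, hk2⟩ := hg Q R hQR _ hF
      refine ⟨k, hk (Or.inr fun hc => hd ?_), hk2⟩
      rw [Finset.disjoint_left]
      intro t ht ht2
      rcases Finset.mem_union.1 ht with ht | ht <;> rcases Finset.mem_union.1 ht2 with ht2 | ht2
      · exact Finset.disjoint_left.1 hPN ht ht2
      · exact hk2.2 t ht2 (hc.1 t ht)
      · exact hc.2 t ht2 (hk2.1 t ht)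
      · exact Finset.disjoint_left.1 hQR ht ht2
  have h2 := hmax _ inf_le_left hI
  have h3 : B ∪ (cell A P N)ᶜ ∈ g := by
    rw [← h2]
    exact mem_inf_of_right (mem_principal_self _)
  refine hcon P N subset_rfl subset_rfl hPN (Or.inr (mem_of_superset h3 ?_))
  rintro k (hk | hk) hk2
  · exact hk2.2 hk
  · exact hk hk2.1

variable [LinearOrder Ω]

/-- `B` has support below `γ`. -/
def Supp (A : Ω → Set ℕ) (g : Filter ℕ) (γ : Ω) (B : Set ℕ) : Prop :=
  ∀ P N : Finset Ω, Disjoint P N → (∀ t ∈ P, t < γ) → (∀ t ∈ N, t < γ) →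
    ∃ P' N', P ⊆ P' ∧ N ⊆ N' ∧ Disjoint P' N' ∧ (∀ t ∈ P', t < γ) ∧ (∀ t ∈ N', t < γ) ∧
      Dec A g B P' N'

theorem Supp.inter {g : Filter ℕ} {γ : Ω} {B B' : Set ℕ} (h : Supp A g γ B) (h' : Supp A g γ B') :
    Supp A g γ (B ∩ B') := by
  intro P N hPN hP hN
  obtain ⟨P1, N1, a1, a2, a3, a4, a5, a6⟩ := h P N hPN hP hN
  obtain ⟨P2, N2, b1, b2, b3, b4, b5, b6⟩ := h' P1 N1 a3 a4 a5
  refine ⟨P2, N2, a1.trans b1, a2.trans b2, b3, b4, b5, ?_⟩
  have a7 := a6.mono b1 b2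
  rcases a7 with a7 | a7
  · exact Or.inl (mem_of_superset a7 fun k hk hk2 => hk ⟨hk2.1, hk2.2.1⟩)
  · rcases b6 with b6 | b6
    · exact Or.inl (mem_of_superset b6 fun k hk hk2 => hk ⟨hk2.1, hk2.2.2⟩)
    · refine Or.inr (mem_of_superset (inter_mem a7 b6) fun k hk hk2 => ?_)
      by_cases hkB : k ∈ B
      · exact hk.2 ⟨hk2.1, fun hkB' => hk2.2 ⟨hkB, hkB'⟩⟩
      · exact hk.1 ⟨hk2.1, hkB⟩

theorem Supp.mono {g : Filter ℕ} {γ δ : Ω} {B : Set ℕ} (h : Supp A g γ B) (hγδ : γ ≤ δ) :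
    Supp A g δ B := by
  classical
  intro P N hPN hP hN
  obtain ⟨P1, N1, a1, a2, a3, a4, a5, a6⟩ := h (P.filter (· < γ)) (N.filter (· < γ))
    (Finset.disjoint_filter_filter hPN) (fun t ht => (Finset.mem_filter.1 ht).2)
    (fun t ht => (Finset.mem_filter.1 ht).2)
  refine ⟨P1 ∪ P, N1 ∪ N, Finset.subset_union_right, Finset.subset_union_right, ?_, ?_, ?_,
    a6.mono Finset.subset_union_left Finset.subset_union_left⟩
  · rw [Finset.disjoint_left]
    intro t ht ht2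
    rcases Finset.mem_union.1 ht with ht | ht <;> rcases Finset.mem_union.1 ht2 with ht2 | ht2
    · exact Finset.disjoint_left.1 a3 ht ht2
    · exact Finset.disjoint_left.1 a3 ht (a2 (Finset.mem_filter.2 ⟨ht2, a4 t ht⟩))
    · exact Finset.disjoint_left.1 a3 (a1 (Finset.mem_filter.2 ⟨ht, a5 t ht2⟩)) ht2
    · exact Finset.disjoint_left.1 hPN ht ht2
  · intro t ht
    rcases Finset.mem_union.1 ht with ht | ht
    · exact (a4 t ht).trans_le hγδ
    · exact hP t ht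
  · intro t ht
    rcases Finset.mem_union.1 ht with ht | ht
    · exact (a5 t ht).trans_le hγδ
    · exact hN t ht

theorem supp_self (g : Filter ℕ) {γ ξ : Ω} (h : ξ < γ) : Supp A g γ (A ξ) := by
  classical
  intro P N hPN hP hN
  by_cases hξ : ξ ∈ N
  · refine ⟨P, N, subset_rfl, subset_rfl, hPN, hP, hN, Or.inl ?_⟩
    have : cell A P N ∩ A ξ = ∅ := by
      ext k
      simp only [Set.mem_inter_iff, Set.mem_empty_iff_false, iff_false, not_and]
      exact fun hk => hk.2 ξ hξ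
    rw [this, Set.compl_empty]
    exact univ_mem
  · refine ⟨insert ξ P, N, Finset.subset_insert _ _, subset_rfl, ?_, ?_, hN, Or.inr ?_⟩
    · rw [Finset.disjoint_insert_left]
      exact ⟨hξ, hPN⟩
    · intro t ht
      rcases Finset.mem_insert.1 ht with rfl | ht
      · exact h
      · exact hP t ht
    · have : cell A (insert ξ P) N \ A ξ = ∅ := by
        ext k
        simp only [Set.mem_sdiff, Set.mem_empty_iff_false, iff_false, not_and, not_not]
        exact fun hk => hk.1 ξ (Finset.mem_insert_self _ _)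
      rw [this, Set.compl_empty]
      exact univ_mem

/-- A non-null set with support below `γ` contains a cell below `γ`, modulo `g`. -/
theorem Supp.nonnull {g : Filter ℕ} (hg : Ind A g) (hmax : ∀ g' ≤ g, Ind A g' → g' = g) {γ : Ω}
    {B : Set ℕ} (h : Supp A g γ B) (hB : Bᶜ ∉ g) :
    ∃ P N : Finset Ω, Disjoint P N ∧ (∀ t ∈ P, t < γ) ∧ (∀ t ∈ N, t < γ) ∧
      (cell A P N \ B)ᶜ ∈ g := by
  classical
  by_contra hcon
  push Not at hcon
  have hI : Ind A (g ⊓ 𝓟 Bᶜ) := by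
    intro Q R hQR F hF
    rw [mem_inf_principal] at hF
    obtain ⟨P1, N1, a1, a2, a3, a4, a5, a6⟩ := h (Q.filter (· < γ)) (R.filter (· < γ))
      (Finset.disjoint_filter_filter hQR) (fun t ht => (Finset.mem_filter.1 ht).2)
      (fun t ht => (Finset.mem_filter.1 ht).2)
    have a7 : (cell A P1 N1 ∩ B)ᶜ ∈ g := a6.resolve_right (hcon P1 N1 a3 a4 a5)
    obtain ⟨k, hk, hk2⟩ := hg (P1 ∪ Q) (N1 ∪ R) (by
      rw [Finset.disjoint_left]
      intro t ht ht2
      rcases Finset.mem_union.1 ht with ht | ht <;> rcases Finset.mem_union.1 ht2 with ht2 | ht2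
      · exact Finset.disjoint_left.1 a3 ht ht2
      · exact Finset.disjoint_left.1 a3 ht (a2 (Finset.mem_filter.2 ⟨ht2, a4 t ht⟩))
      · exact Finset.disjoint_left.1 a3 (a1 (Finset.mem_filter.2 ⟨ht, a5 t ht2⟩)) ht2
      · exact Finset.disjoint_left.1 hQR ht ht2) _ (inter_mem hF a7)
    have hkB : k ∈ Bᶜ := fun hkB =>
      hk.2 ⟨cell_anti A Finset.subset_union_left Finset.subset_union_left hk2, hkB⟩
    exact ⟨k, hk.1 hkB, cell_anti A Finset.subset_union_right Finset.subset_union_right hk2⟩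
  have h2 := hmax _ inf_le_left hI
  refine hB ?_
  rw [← h2]
  exact mem_inf_of_right (mem_principal_self _)

/-- Every set has support below some index. -/
theorem exists_supp [WellFoundedLT Ω] (hcount : ∀ γ : Ω, (Set.Iio γ).Countable)
    (hbdd : ∀ S : Set Ω, S.Countable → ∃ γ, ∀ t ∈ S, t < γ) {g : Filter ℕ} (hg : Ind A g)
    (hmax : ∀ g' ≤ g, Ind A g' → g' = g) (B : Set ℕ) : ∃ γ, Supp A g γ B := by
  classical
  have hdec := fun (p : Finset Ω × Finset Ω) (hp : Disjoint p.1 p.2) =>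
    exists_dec hg hmax B p.1 p.2 hp
  choose! P' N' h1 h2 h3 h4 using hdec
  have hstep : ∀ γ : Ω, ∃ δ, γ < δ ∧ ∀ p : Finset Ω × Finset Ω, (∀ t ∈ p.1, t < γ) →
      (∀ t ∈ p.2, t < γ) → (∀ t ∈ P' p, t < δ) ∧ ∀ t ∈ N' p, t < δ := by
    intro γ
    have hc : {p : Finset Ω × Finset Ω | (∀ t ∈ p.1, t < γ) ∧ ∀ t ∈ p.2, t < γ}.Countable := by
      have hf : {s : Finset Ω | ∀ t ∈ s, t < γ}.Countable := by
        refine Set.MapsTo.countable_of_injOn (f := fun s : Finset Ω => (s : Set Ω))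
          (fun s hs => ?_) Finset.coe_injective.injOn
          (Set.countable_ofPred_finite_subset (hcount γ))
        exact ⟨s.finite_toSet, fun t ht => hs t ht⟩
      refine Set.Countable.mono (fun p hp => ?_) (hf.prod hf)
      exact Set.mem_prod.2 ⟨hp.1, hp.2⟩
    obtain ⟨δ, hδ⟩ := hbdd ({γ} ∪ ⋃ p ∈ {p : Finset Ω × Finset Ω | (∀ t ∈ p.1, t < γ) ∧
        ∀ t ∈ p.2, t < γ}, ((P' p : Set Ω) ∪ (N' p : Set Ω)))
      ((Set.countable_singleton _).union (hc.biUnion fun p _ =>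
        ((P' p).countable_toSet.union (N' p).countable_toSet)))
    refine ⟨δ, hδ γ (Or.inl rfl), fun p hp1 hp2 => ⟨fun t ht => hδ t (Or.inr ?_), fun t ht => hδ t (Or.inr ?_)⟩⟩
    · exact Set.mem_biUnion (x := p) ⟨hp1, hp2⟩ (Or.inl ht)
    · exact Set.mem_biUnion (x := p) ⟨hp1, hp2⟩ (Or.inr ht)
  choose nx hnx1 hnx2 using hstep
  obtain ⟨γ0, -⟩ := hbdd ∅ Set.countable_empty
  let a : ℕ → Ω := fun n => nx^[n] γ0
  have ha : ∀ n, a (n + 1) = nx (a n) := fun n => Function.iterate_succ_apply' nx n γ0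
  have hmono : Monotone a := monotone_nat_of_le_succ fun n => by
    rw [ha]
    exact (hnx1 _).le
  obtain ⟨β, hβ⟩ := hbdd (Set.range a) (Set.countable_range a)
  let S : Set Ω := {γ | ∀ n, a n ≤ γ}
  have hS : S.Nonempty := ⟨β, fun n => (hβ _ ⟨n, rfl⟩).le⟩
  let γ := WellFounded.min (wellFounded_lt (α := Ω)) S hS
  have hγ : ∀ n, a n ≤ γ := WellFounded.min_mem (wellFounded_lt (α := Ω)) S hS
  have hγ2 : ∀ t < γ, ∃ n, t < a n := by
    intro t ht
    by_contra hc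
    push Not at hc
    exact (WellFounded.not_lt_min (wellFounded_lt (α := Ω)) S (x := t) hc) ht
  have hγ3 : ∀ s : Finset Ω, (∀ t ∈ s, t < γ) → ∃ n, ∀ t ∈ s, t < a n := by
    intro s hs
    choose! f hf using hγ2
    refine ⟨s.sup f, fun t ht => (hf t (hs t ht)).trans_le (hmono (Finset.le_sup ht))⟩
  refine ⟨γ, fun P N hPN hP hN => ?_⟩
  obtain ⟨n1, hn1⟩ := hγ3 P hP
  obtain ⟨n2, hn2⟩ := hγ3 N hN
  have hP2 : ∀ t ∈ P, t < a (max n1 n2) := fun t ht => (hn1 t ht).trans_le (hmono (le_max_left _ _))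
  have hN2 : ∀ t ∈ N, t < a (max n1 n2) := fun t ht => (hn2 t ht).trans_le (hmono (le_max_right _ _))
  have h5 := hnx2 (a (max n1 n2)) (P, N) hP2 hN2
  rw [← ha] at h5
  exact ⟨P' (P, N), N' (P, N), h1 (P, N) hPN, h2 (P, N) hPN, h3 (P, N) hPN,
    fun t ht => (h5.1 t ht).trans_le (hγ _), fun t ht => (h5.2 t ht).trans_le (hγ _), h4 (P, N) hPN⟩

/-! ### The filters at the indices -/

/-- The filter at `γ`. -/
def X (A : Ω → Set ℕ) (g : Filter ℕ) (U : Ultrafilter ℕ) (γ : Ω) : Filter ℕ where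
  sets := {F | ∃ B ∈ U, Supp A g γ B ∧ ∃ G ∈ g, ∃ N : Finset Ω, (∀ t ∈ N, γ ≤ t) ∧
    B ∩ G ∩ cell A ∅ N ⊆ F}
  univ_sets := by
    refine ⟨Set.univ, univ_mem, fun P N hPN hP hN => ⟨P, N, subset_rfl, subset_rfl, hPN, hP, hN,
      Or.inr ?_⟩, Set.univ, univ_mem, ∅, by simp, Set.subset_univ _⟩
    rw [Set.sdiff_univ, Set.compl_empty]
    exact univ_mem
  sets_of_superset := by
    rintro F F' ⟨B, hB, hs, G, hG, N, hN, h⟩ hFF
    exact ⟨B, hB, hs, G, hG, N, hN, h.trans hFF⟩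
  inter_sets := by
    classical
    rintro F F' ⟨B, hB, hs, G, hG, N, hN, h⟩ ⟨B', hB', hs', G', hG', N', hN', h'⟩
    refine ⟨B ∩ B', inter_mem hB hB', hs.inter hs', G ∩ G', inter_mem hG hG', N ∪ N', ?_, ?_⟩
    · intro t ht
      rcases Finset.mem_union.1 ht with ht | ht
      · exact hN t ht
      · exact hN' t ht
    · rintro k ⟨⟨hkB, hkG⟩, hk⟩
      exact ⟨h ⟨⟨hkB.1, hkG.1⟩, cell_anti A subset_rfl Finset.subset_union_left hk⟩,
        h' ⟨⟨hkB.2, hkG.2⟩, cell_anti A subset_rfl Finset.subset_union_right hk⟩⟩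

theorem X_neBot {g : Filter ℕ} (hg : Ind A g) (hmax : ∀ g' ≤ g, Ind A g' → g' = g)
    (U : Ultrafilter ℕ) (hU : (U : Filter ℕ) ≤ g) (γ : Ω) : (X A g U γ).NeBot := by
  classical
  rw [Filter.neBot_iff, Ne, ← Filter.empty_mem_iff_bot]
  rintro ⟨B, hB, hs, G, hG, N, hN, h⟩
  have hBg : Bᶜ ∉ g := fun hc => Ultrafilter.compl_notMem_iff.2 hB (hU hc)
  obtain ⟨P1, N1, a1, a2, a3, a4⟩ := hs.nonnull hg hmax hBg
  obtain ⟨k, hk, hk2⟩ := hg P1 (N1 ∪ N) (by
    rw [Finset.disjoint_left]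
    intro t ht ht2
    rcases Finset.mem_union.1 ht2 with ht2 | ht2
    · exact Finset.disjoint_left.1 a1 ht ht2
    · exact absurd (a2 t ht) (not_lt.2 (hN t ht2))) _ (inter_mem hG a4)
  have hkB : k ∈ B := by
    by_contra hkB
    exact hk.2 ⟨cell_anti A subset_rfl Finset.subset_union_left hk2, hkB⟩
  exact h ⟨⟨hkB, hk.1⟩, cell_anti A (Finset.empty_subset _) Finset.subset_union_right hk2⟩

theorem X_le (g : Filter ℕ) (U : Ultrafilter ℕ) (γ : Ω) : X A g U γ ≤ g := by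
  intro G hG
  refine ⟨Set.univ, univ_mem, fun P N hPN hP hN => ⟨P, N, subset_rfl, subset_rfl, hPN, hP, hN,
      Or.inr ?_⟩, G, hG, ∅, by simp, fun k hk => hk.1.2⟩
  rw [Set.sdiff_univ, Set.compl_empty]
  exact univ_mem

theorem X_supp {g : Filter ℕ} {U : Ultrafilter ℕ} {γ : Ω} {B : Set ℕ} (hB : B ∈ U)
    (h : Supp A g γ B) : B ∈ X A g U γ :=
  ⟨B, hB, h, Set.univ, univ_mem, ∅, by simp, fun _ hk => hk.1.1⟩

theorem X_not {g : Filter ℕ} {U : Ultrafilter ℕ} {γ ξ : Ω} (h : γ ≤ ξ) :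
    (A ξ)ᶜ ∈ X A g U γ := by
  refine ⟨Set.univ, univ_mem, fun P N hPN hP hN => ⟨P, N, subset_rfl, subset_rfl, hPN, hP, hN,
      Or.inr ?_⟩, Set.univ, univ_mem, {ξ}, by simpa using h, fun k hk => hk.2.2 ξ (by simp)⟩
  rw [Set.sdiff_univ, Set.compl_empty]
  exact univ_mem

/-- an ultrafilter containing `g` and all the `A ξ` -/
theorem exists_U {g : Filter ℕ} (hg : Ind A g) :
    ∃ U : Ultrafilter ℕ, (U : Filter ℕ) ≤ g ∧ ∀ ξ, A ξ ∈ U := by
  classical
  let f : Filter ℕ :=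
    { sets := {F | ∃ P : Finset Ω, ∃ G ∈ g, G ∩ cell A P ∅ ⊆ F}
      univ_sets := ⟨∅, Set.univ, univ_mem, Set.subset_univ _⟩
      sets_of_superset := by
        rintro F F' ⟨P, G, hG, h⟩ hFF
        exact ⟨P, G, hG, h.trans hFF⟩
      inter_sets := by
        rintro F F' ⟨P, G, hG, h⟩ ⟨P', G', hG', h'⟩
        exact ⟨P ∪ P', G ∩ G', inter_mem hG hG', fun k hk =>
          ⟨h ⟨hk.1.1, cell_anti A Finset.subset_union_left subset_rfl hk.2⟩,
            h' ⟨hk.1.2, cell_anti A Finset.subset_union_right subset_rfl hk.2⟩⟩⟩ }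
  have hf : f.NeBot := by
    rw [Filter.neBot_iff, Ne, ← Filter.empty_mem_iff_bot]
    rintro ⟨P, G, hG, h⟩
    obtain ⟨k, hk⟩ := hg P ∅ (Finset.disjoint_empty_right _) G hG
    exact h hk
  obtain ⟨U, hU⟩ := Ultrafilter.exists_le f
  refine ⟨U, fun G hG => hU ⟨∅, G, hG, Set.inter_subset_left⟩, fun ξ => hU ⟨{ξ}, Set.univ,
    univ_mem, fun k hk => hk.2.1 ξ (by simp)⟩⟩

end

/-! ### Assembly -/

/-- The first uncountable well-order. -/
abbrev W : Type := (Cardinal.aleph 1 : Cardinal.{0}).ord.ToType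

theorem W_count (γ : W) : (Set.Iio γ).Countable := by
  rw [← Cardinal.le_aleph0_iff_set_countable]
  have h2 : #(Set.Iio γ) < Cardinal.aleph 1 := by
    have h := Cardinal.mk_Iio_lt γ (by simp)
    simpa using h
  exact Order.lt_succ_iff.1 (h2.trans_eq Cardinal.succ_aleph0.symm)

theorem W_bdd (S : Set W) (hS : S.Countable) : ∃ γ, ∀ t ∈ S, t < γ := by
  by_contra hc
  push Not at hc
  have h1 : (Set.univ : Set W) ⊆ ⋃ t ∈ S, Set.Iic t := by
    intro γ _
    obtain ⟨t, ht, hγ⟩ := hc γ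
    exact Set.mem_biUnion ht hγ
  have h2 : (⋃ t ∈ S, Set.Iic t).Countable := hS.biUnion fun t _ => by
    rw [← Set.Iio_insert]
    exact (W_count t).insert t
  have h3 := h2.mono h1
  rw [← Cardinal.le_aleph0_iff_set_countable, Cardinal.mk_univ] at h3
  have h4 : #W = Cardinal.aleph 1 := by simp
  rw [h4] at h3
  exact absurd h3 (not_le.2 Cardinal.aleph0_lt_aleph_one)

theorem exists_families : ∃ (A : W → Set ℕ) (C : Set ℕ → Set ℕ),
    ∀ (P N : Finset W) (Q R : Finset (Set ℕ)), Disjoint P N → Disjoint Q R →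
    (cell A P N ∩ cell C Q R).Infinite := by
  classical
  have hcard : #(W ⊕ Set ℕ) ≤ #(Set ℕ) := by
    have h4 : #W = Cardinal.aleph 1 := by simp
    have h5 : #(Set ℕ) = 𝔠 := by simp
    rw [← Cardinal.add_def, h4, h5]
    exact Cardinal.add_le_of_le Cardinal.aleph0_le_continuum Cardinal.aleph_one_le_continuum le_rfl
  obtain ⟨j⟩ := (Cardinal.le_def _ _).1 hcard
  refine ⟨fun ξ => ind (j (Sum.inl ξ)), fun η => ind (j (Sum.inr η)), ?_⟩
  intro P N Q R hPN hQR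
  refine (ind_infinite (P.image (fun ξ => j (Sum.inl ξ)) ∪ Q.image (fun η => j (Sum.inr η)))
    (N.image (fun ξ => j (Sum.inl ξ)) ∪ R.image (fun η => j (Sum.inr η))) ?_).mono ?_
  · rw [Finset.disjoint_left]
    intro s hs hs2
    simp only [Finset.mem_union, Finset.mem_image] at hs hs2
    rcases hs with ⟨ξ, hξ, rfl⟩ | ⟨η, hη, rfl⟩ <;> rcases hs2 with ⟨ξ', hξ', h⟩ | ⟨η', hη', h⟩
    · have := Sum.inl.inj (j.injective h)
      exact Finset.disjoint_left.1 hPN hξ (this ▸ hξ')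
    · exact absurd (j.injective h) (by simp)
    · exact absurd (j.injective h) (by simp)
    · have := Sum.inr.inj (j.injective h)
      exact Finset.disjoint_left.1 hQR hη (this ▸ hη')
  · intro k hk
    refine ⟨⟨fun t ht => hk.1 _ ?_, fun t ht => hk.2 _ ?_⟩,
      ⟨fun t ht => hk.1 _ ?_, fun t ht => hk.2 _ ?_⟩⟩
    · exact Finset.mem_union_left _ (Finset.mem_image_of_mem _ ht)
    · exact Finset.mem_union_left _ (Finset.mem_image_of_mem _ ht)
    · exact Finset.mem_union_right _ (Finset.mem_image_of_mem _ ht)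
    · exact Finset.mem_union_right _ (Finset.mem_image_of_mem _ ht)

theorem isIdeal_notMem {ι : Type} [Nonempty ι] (x : ι → Ultrafilter ℕ)
    (h : ∀ i, ∀ E : Set ℕ, E.Finite → Eᶜ ∈ x i) : IsIdeal {S | ∀ i, S ∉ x i} where
  subset := fun A hA B hBA i hB => hA i (mem_of_superset hB hBA)
  union := fun A hA B hB i hAB => by
    rcases Ultrafilter.union_mem_iff.1 hAB with hAB | hAB
    · exact hA i hAB
    · exact hB i hAB
  univ_notMem := fun hc => hc (Classical.arbitrary ι) univ_mem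
  finite := fun E hE i hE2 => Ultrafilter.compl_notMem_iff.2 hE2 (h i E hE)

/-- **Q1 has a positive answer in ZFC**: there are a maximal ideal `I` on `ω` with
`cof(I) = 𝔠` and an ideal `J ⊆ I` with `cof_J(I) = ω₁`. -/
theorem result : ∃ I J : Set (Set ℕ), IsMaximalIdeal I ∧ cof I = 𝔠 ∧ IsIdeal J ∧ J ⊆ I ∧
    cofRel J I = Cardinal.aleph 1 := by
  classical
  obtain ⟨A, C, hAC⟩ := exists_families
  obtain ⟨g, hg1, hg, hmax⟩ := exists_max A (base C) (base_ind A C hAC)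
  obtain ⟨U, hU, hUA⟩ := exists_U hg
  have hne := X_neBot hg hmax U hU
  choose x hx using fun γ : W => @Ultrafilter.exists_le ℕ (X A g U γ) (hne γ)
  obtain ⟨γ0, -⟩ := W_bdd ∅ Set.countable_empty
  have : Nonempty W := ⟨γ0⟩
  have hfinU : ∀ E : Set ℕ, E.Finite → Eᶜ ∈ U := fun E hE => hU (hg1 (base_cofinite C E hE))
  have hfinx : ∀ γ, ∀ E : Set ℕ, E.Finite → Eᶜ ∈ x γ := fun γ E hE =>
    hx γ (X_le g U γ (hg1 (base_cofinite C E hE)))
  have hev : ∀ B ∈ U, ∃ α, ∀ γ, α ≤ γ → B ∈ x γ := by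
    intro B hB
    obtain ⟨α, hα⟩ := exists_supp W_count W_bdd hg hmax B
    exact ⟨α, fun γ hγ => hx γ (X_supp hB (hα.mono hγ))⟩
  have hin : ∀ γ ξ, ξ < γ → A ξ ∈ x γ := fun γ ξ h => hx γ (X_supp (hUA ξ) (supp_self g h))
  have hout : ∀ γ ξ, γ ≤ ξ → (A ξ)ᶜ ∈ x γ := fun γ ξ h => hx γ (X_not h)
  have hI : IsIdeal {S : Set ℕ | ∀ _ : Unit, S ∉ U} := isIdeal_notMem (fun _ : Unit => U) fun _ => hfinU
  have hIU : {S : Set ℕ | ∀ _ : Unit, S ∉ U} = {S : Set ℕ | S ∉ U} := by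
    ext S
    simp
  rw [hIU] at hI
  have hJ : IsIdeal {S : Set ℕ | ∀ γ, S ∉ x γ} := isIdeal_notMem x hfinx
  have hJI : {S : Set ℕ | ∀ γ, S ∉ x γ} ⊆ {S : Set ℕ | S ∉ U} := by
    intro S hS hSU
    obtain ⟨α, hα⟩ := hev S hSU
    exact hS α (hα α le_rfl)
  refine ⟨{S | S ∉ U}, {S | ∀ γ, S ∉ x γ}, ⟨hI, ?_⟩, ?_, hJ, hJI, ?_⟩
  · -- maximality
    intro K hK hIK
    refine Set.Subset.antisymm (fun S hS hSU => ?_) hIK
    have h1 : Sᶜ ∈ K := hIK (Ultrafilter.compl_notMem_iff.2 hSU)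
    have h2 := hK.union _ hS _ h1
    rw [Set.union_compl_self] at h2
    exact hK.univ_notMem h2
  · -- the cofinality is `𝔠`
    apply le_antisymm
    · refine (cof_le subset_rfl fun S hS => ⟨S, hS, subset_rfl⟩).trans ?_
      refine (Cardinal.mk_set_le _).trans ?_
      simp
    · refine le_csInf ⟨_, _, subset_rfl, fun S hS => ⟨S, hS, subset_rfl⟩, rfl⟩ ?_
      rintro κ ⟨B, hB, hcov, rfl⟩
      have h1 : ∀ η : Set ℕ, ∃ b : B, (C η)ᶜ ⊆ (b : Set ℕ) := by
        intro η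
        have hC : C η ∈ U := hU (hg1 (base_C C η))
        obtain ⟨b, hb, h⟩ := hcov _ (Ultrafilter.compl_notMem_iff.2 hC)
        exact ⟨⟨b, hb⟩, h⟩
      choose b hb using h1
      have h2 : ∀ D : B, {η | b η = D}.Finite := by
        intro D
        by_contra hinf
        have h3 : ((D : Set ℕ)ᶜ)ᶜ ∈ base C := by
          refine base_D C _ (Set.Infinite.mono (fun η hη => ?_) hinf)
          have h4 := hb η
          rw [Set.mem_ofPred_eq] at hη
          rw [hη] at h4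
          exact Set.compl_subset_comm.1 h4
        rw [compl_compl] at h3
        exact hB D.2 (hU (hg1 h3))
      have h3 : 𝔠 ≤ #B * ℵ₀ := by
        have h4 : (Set.univ : Set (Set ℕ)) = ⋃ D : B, {η | b η = D} := by
          ext η
          simp
        have h5 : #(Set ℕ) = #(Set.univ : Set (Set ℕ)) := Cardinal.mk_univ.symm
        have h6 : #(Set ℕ) = 𝔠 := by simp
        rw [← h6, h5, h4]
        refine (Cardinal.mk_iUnion_le _).trans (mul_le_mul_right ?_ _)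
        exact ciSup_le' fun D => (h2 D).lt_aleph0.le
      by_contra hlt
      have hlt : #B < 𝔠 := not_le.1 hlt
      exact absurd h3 (not_le.2
        (Cardinal.mul_lt_of_lt Cardinal.aleph0_le_continuum hlt Cardinal.aleph0_lt_continuum))
  · -- the relative cofinality is `ω₁`
    have hfam : ∀ S ∈ {S : Set ℕ | S ∉ U}, ∃ A' ∈ Set.range fun ξ => (A ξ)ᶜ,
        S \ A' ∈ {S : Set ℕ | ∀ γ, S ∉ x γ} := by
      intro S hS
      obtain ⟨α, hα⟩ := hev Sᶜ (Ultrafilter.compl_mem_iff_notMem.2 hS)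
      refine ⟨_, ⟨α, rfl⟩, fun γ hγ => ?_⟩
      rcases le_or_gt γ α with h | h
      · exact Ultrafilter.compl_notMem_iff.2 (mem_of_superset hγ fun k hk => not_not.1 hk.2)
          (hout γ α h)
      · exact Ultrafilter.compl_notMem_iff.2 (mem_of_superset hγ fun k hk => hk.1) (hα γ h.le)
    have hsub : (Set.range fun ξ => (A ξ)ᶜ) ⊆ {S : Set ℕ | S ∉ U} := by
      rintro _ ⟨ξ, rfl⟩
      exact Ultrafilter.compl_notMem_iff.2 (hUA ξ)
    apply le_antisymm
    · refine (cofRel_le hsub hfam).trans ?_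
      refine Cardinal.mk_range_le.trans ?_
      simp
    · refine le_csInf ⟨_, _, hsub, hfam, rfl⟩ ?_
      rintro κ ⟨𝒜, h𝒜, hcov, rfl⟩
      by_contra hlt
      have hc : 𝒜.Countable := by
        rw [← Cardinal.le_aleph0_iff_set_countable]
        rwa [not_le, ← Cardinal.succ_aleph0, Order.lt_succ_iff] at hlt
      have hα : ∀ A' ∈ 𝒜, ∃ α, ∀ γ, α ≤ γ → A'ᶜ ∈ x γ := fun A' hA' =>
        hev _ (Ultrafilter.compl_mem_iff_notMem.2 (h𝒜 hA'))
      choose! α hα using hα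
      obtain ⟨δ, hδ⟩ := W_bdd (α '' 𝒜) (hc.image α)
      obtain ⟨A', hA', h⟩ := hcov (A δ)ᶜ (Ultrafilter.compl_notMem_iff.2 (hUA δ))
      exact h δ (inter_mem (hout δ δ le_rfl) (hα A' hA' δ (hδ _ ⟨A', hA', rfl⟩).le))

end Pool.Agent.Results.MP_f21612_lc.MaximalIdeal
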